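import Pool.Agent.Results.MP_9f28a9_al.NoGenericPoint

/-!
# Irreducible closed sets without generic point over countable von Neumann regular algebras

For every field `K` there is a von Neumann regular `K`-algebra `R` with at most `max (#K) ℵ₀`
elements, so a countable one if `K` is countable, and an irreducible Zariski-closed subset of the
rep-Zariski spectrum of `R`, the intersection of only two basic closed sets, without generic point.

Proof: the counterexample of `NoGenericPoint` lives in a ring of endomorphisms of a vector space of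
dimension `ℵ_ω`. We isolate what its proof needs of the ring (`Data`) and pass to a small subalgebra
closed under the choice of quasi-inverses and of factorizations.
-/

set_option autoImplicit false

open MulOpposite Cardinal

namespace Pool.Agent.Results.MP_9f28a9_al.CountableRings

open Pool.Agent.Results.MP_9f28a9_al.NoGenericPoint

/-- A chain of two-sided ideals `I n` of a von Neumann regular ring, modulo whose union the
idempotent `P` is central, with all the properties needed. -/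
structure Data (R : Type) [Ring R] where
  reg : ∀ a : R, ∃ x : R, a * x * a = a
  I : ℕ → R → Prop
  mono : ∀ m n x, m ≤ n → I m x → I n x
  zero : ∀ n, I n 0
  add : ∀ n x y, I n x → I n y → I n (x + y)
  left : ∀ n x y, I n x → I n (y * x)
  right : ∀ n x y, I n x → I n (x * y)
  e : ℕ → R
  e_idem : ∀ n, e n * e n = e n
  e_mem : ∀ n, ∃ m, I m (e n)
  e_not : ∀ n, ¬ I n (e n)
  P : R
  P_idem : P * P = P
  comm : ∀ x, ∃ n, I n (x * P - P * x)
  fac : ∀ n x r, I n x → (∀ m, ¬ I m r) → ∃ u v, x = u * r * v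
  P_not : ∀ m, ¬ I m P
  Q_not : ∀ m, ¬ I m (1 - P)

variable {R : Type} [Ring R] (D : Data R)

theorem exists_max (n : ℕ) : ∃ M : Ideal Rᵐᵒᵖ, M.IsMaximal ∧ (∀ x : R, D.I n x → op x ∈ M) ∧
    op (D.e n) ∉ M := by
  let A : Ideal Rᵐᵒᵖ :=
    { carrier := {x | D.I n (D.e n * unop x)}
      add_mem' := by
        intro x y hx hy
        rw [Set.mem_ofPred_eq] at hx hy ⊢
        rw [unop_add, mul_add]
        exact D.add n _ _ hx hy
      zero_mem' := by
        rw [Set.mem_ofPred_eq, unop_zero, mul_zero]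
        exact D.zero n
      smul_mem' := by
        intro r x hx
        rw [Set.mem_ofPred_eq] at hx ⊢
        rw [smul_eq_mul, unop_mul, ← mul_assoc]
        exact D.right n _ _ hx }
  have hmemA : ∀ x : Rᵐᵒᵖ, x ∈ A ↔ D.I n (D.e n * unop x) := fun x => Iff.rfl
  have hA : A ≠ ⊤ := by
    intro h
    have : (1 : Rᵐᵒᵖ) ∈ A := by rw [h]; trivial
    rw [hmemA, unop_one, mul_one] at this
    exact D.e_not n this
  obtain ⟨M, hM, hAM⟩ := Ideal.exists_le_maximal A hA
  refine ⟨M, hM, fun x hx => hAM ?_, fun h => ?_⟩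
  · rw [hmemA, unop_op]
    exact D.left n _ _ hx
  · have h1 : op (1 - D.e n) ∈ M := by
      apply hAM
      rw [hmemA, unop_op, mul_sub, D.e_idem, mul_one, sub_self]
      exact D.zero n
    have h2 := M.add_mem h1 h
    rw [← op_add, sub_add_cancel, op_one] at h2
    exact hM.ne_top ((Ideal.eq_top_iff_one M).2 h2)

theorem exists_pt (n : ℕ) : ∃ N : IndecPureInj R,
    (∀ x : R, D.I n x → ∀ v : N.carrier, op x • v = 0) ∧
      ∃ x : R, (∃ m, D.I m x) ∧ ∃ v : N.carrier, op x • v ≠ 0 := by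
  obtain ⟨M, hM, hM1, hM2⟩ := exists_max D n
  obtain ⟨N, hN1, hN2⟩ := exists_point_aux D.reg (D.I n) (fun x y hx => D.left n x y hx)
    (fun x y hx => D.right n x y hx) M hM hM1 (D.e n) hM2
  exact ⟨N, hN1, D.e n, D.e_mem n, hN2⟩

theorem kills {N : Type} [AddCommGroup N] [Module Rᵐᵒᵖ N] (r : R) (hr : ∀ m, ¬ D.I m r)
    (h : ∀ v : N, op r • v = 0) (x : R) (hx : ∃ n, D.I n x) (v : N) : op x • v = 0 := by
  obtain ⟨n, hn⟩ := hx
  obtain ⟨u, w, rfl⟩ := D.fac n x r hn hr
  rw [op_mul, op_mul, mul_smul, mul_smul, h, smul_zero]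

theorem not_kills {N : Type} [AddCommGroup N] [Module Rᵐᵒᵖ N] (hN : IsIndecomposable R N)
    (h1 : ∃ v : N, op D.P • v ≠ 0) (h2 : ∃ v : N, op (1 - D.P) • v ≠ 0) :
    ∃ x : R, (∃ n, D.I n x) ∧ ∃ v : N, op x • v ≠ 0 := by
  by_contra hcon
  push Not at hcon
  have hcomm : ∀ (r : R) (v : N), op D.P • op r • v = op r • op D.P • v := by
    intro r v
    obtain ⟨n, hn⟩ := D.comm r
    have h := hcon (r * D.P - D.P * r) ⟨n, hn⟩ v
    rw [op_sub, sub_smul, op_mul, op_mul, mul_smul, mul_smul] at h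
    exact sub_eq_zero.1 h
  let A : Submodule Rᵐᵒᵖ N :=
    { carrier := {v | op D.P • v = v}
      add_mem' := by
        intro x y hx hy
        rw [Set.mem_ofPred_eq] at hx hy ⊢
        rw [smul_add, hx, hy]
      zero_mem' := by
        rw [Set.mem_ofPred_eq, smul_zero]
      smul_mem' := by
        intro r x hx
        rw [Set.mem_ofPred_eq] at hx ⊢
        have := hcomm (unop r) x
        rw [op_unop] at this
        rw [this, hx] }
  let B : Submodule Rᵐᵒᵖ N :=
    { carrier := {v | op D.P • v = 0}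
      add_mem' := by
        intro x y hx hy
        rw [Set.mem_ofPred_eq] at hx hy ⊢
        rw [smul_add, hx, hy, add_zero]
      zero_mem' := by
        rw [Set.mem_ofPred_eq, smul_zero]
      smul_mem' := by
        intro r x hx
        rw [Set.mem_ofPred_eq] at hx ⊢
        have := hcomm (unop r) x
        rw [op_unop] at this
        rw [this, hx, smul_zero] }
  have hPA : ∀ v : N, op D.P • v ∈ A := fun v => by
    change op D.P • op D.P • v = op D.P • v
    rw [← mul_smul, ← op_mul, D.P_idem]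
  have hPB : ∀ v : N, op (1 - D.P) • v ∈ B := fun v => by
    change op D.P • op (1 - D.P) • v = 0
    rw [← mul_smul, ← op_mul, sub_mul, one_mul, D.P_idem, sub_self, op_zero, zero_smul]
  have hcompl : IsCompl A B := by
    constructor
    · rw [Submodule.disjoint_def]
      intro x hx hx'
      change op D.P • x = x at hx
      change op D.P • x = 0 at hx'
      rw [← hx, hx']
    · rw [codisjoint_iff, eq_top_iff]
      intro v _
      rw [Submodule.mem_sup]
      refine ⟨_, hPA v, _, hPB v, ?_⟩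
      rw [← add_smul, ← op_add, add_sub_cancel, op_one, one_smul]
  rcases hN.2 A B hcompl with h | h
  · obtain ⟨v, hv⟩ := h1
    have := hPA v
    rw [h, Submodule.mem_bot] at this
    exact hv this
  · obtain ⟨v, hv⟩ := h2
    have := hPB v
    rw [h, Submodule.mem_bot] at this
    exact hv this

include D in
/-- The main argument, for every ring with `Data`. -/
theorem main_data : ∃ A B : PPPair R,
    @IsClosed _ (zariski R) (A.basic ∩ B.basic) ∧
    @IsIrreducible _ (zariski R) (A.basic ∩ B.basic) ∧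
    ∀ x ∈ A.basic ∩ B.basic, @closure _ (zariski R) {x} ≠ A.basic ∩ B.basic := by
  choose N hN1 hN2 using fun n => exists_pt D n
  let pt : ℕ → Zg R := fun n => cls (N n)
  set C : Set (Zg R) := (divPair D.P).basic ∩ (divPair (1 - D.P)).basic with hCdef
  let _ := zariski R
  have hbasic : ∀ P : PPPair R, IsClosed P.basic := fun P =>
    ⟨TopologicalSpace.isOpen_generateFrom_of_mem ⟨P, rfl⟩⟩
  have hptC : ∀ n, pt n ∈ C := by
    intro n
    obtain ⟨x, hx, v, hv⟩ := hN2 n
    constructor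
    · refine (mem_basic _ _).2 ((divPair_iff _ _).2 ?_)
      by_contra hcon
      push Not at hcon
      exact hv (kills D D.P D.P_not hcon x hx v)
    · refine (mem_basic _ _).2 ((divPair_iff _ _).2 ?_)
      by_contra hcon
      push Not at hcon
      exact hv (kills D (1 - D.P) D.Q_not hcon x hx v)
  have hC : ∀ M : IndecPureInj R, cls M ∈ C →
      ∃ x : R, (∃ n, D.I n x) ∧ ∃ v : M.carrier, op x • v ≠ 0 := by
    intro M hM
    have h1 := hM.1
    have h2 := hM.2
    rw [mem_basic, divPair_iff] at h1 h2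
    exact not_kills D M.indec h1 h2
  -- every open set meeting `C` contains almost all the points `pt n`
  have key : ∀ U : Set (Zg R), TopologicalSpace.GenerateOpen
      {U | ∃ P : PPPair R, U = (P.basic)ᶜ} U → ∀ x ∈ U, x ∈ C →
        ∃ n0 : ℕ, ∀ n ≥ n0, pt n ∈ U := by
    intro U hU
    induction hU with
    | basic s hs =>
      obtain ⟨Q, rfl⟩ := hs
      intro x hx hxC
      obtain ⟨M, rfl⟩ := exists_cls x
      obtain ⟨r, hr⟩ := pair_eq D.reg Q
      have hM : ∀ v : M.carrier, op r • v = 0 := by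
        by_contra hcon
        push Not at hcon
        apply hx
        rw [mem_basic, hr]
        exact hcon
      have hrank : ∃ n0, D.I n0 r := by
        by_contra hcon
        push Not at hcon
        obtain ⟨y, hy, v, hv⟩ := hC M hxC
        exact hv (kills D r hcon hM y hy v)
      obtain ⟨n0, hn0⟩ := hrank
      refine ⟨n0, fun n hn => ?_⟩
      intro hmem
      obtain ⟨v, hv⟩ := (hr _).1 ((mem_basic _ _).1 hmem)
      exact hv (hN1 n r (D.mono _ _ _ hn hn0) v)
    | univ =>
      intro x _ _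
      exact ⟨0, fun n _ => trivial⟩
    | inter s t _ _ ihs iht =>
      intro x hx hxC
      obtain ⟨a, ha⟩ := ihs x hx.1 hxC
      obtain ⟨b, hb⟩ := iht x hx.2 hxC
      exact ⟨max a b, fun n hn =>
        ⟨ha n ((le_max_left a b).trans hn), hb n ((le_max_right a b).trans hn)⟩⟩
    | sUnion S _ ih =>
      intro x hx hxC
      obtain ⟨s, hs, hxs⟩ := hx
      obtain ⟨a, ha⟩ := ih s hs x hxs hxC
      exact ⟨a, fun n hn => ⟨s, hs, ha n hn⟩⟩
  refine ⟨divPair D.P, divPair (1 - D.P), (hbasic _).inter (hbasic _), ⟨?_, ?_⟩, ?_⟩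
  · exact ⟨pt 0, hptC 0⟩
  · rintro U U' hU hU' ⟨x, hxC, hxU⟩ ⟨y, hyC, hyU⟩
    obtain ⟨a, ha⟩ := key U hU x hxU hxC
    obtain ⟨b, hb⟩ := key U' hU' y hyU hyC
    exact ⟨pt (max a b), hptC _, ha _ (le_max_left _ _), hb _ (le_max_right _ _)⟩
  · intro x hxC hclos
    obtain ⟨M, rfl⟩ := exists_cls x
    obtain ⟨y, ⟨n, hn⟩, v, hv⟩ := hC M hxC
    have h1 : closure {cls M} ⊆
        (divPair y).basic := by
      refine closure_minimal ?_ (hbasic _)
      rw [Set.singleton_subset_iff, mem_basic, divPair_iff]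
      exact ⟨v, hv⟩
    have h2 : pt n ∈ (divPair y).basic := h1 (by rw [hclos]; exact hptC n)
    obtain ⟨w, hw⟩ := (divPair_iff _ _).1 ((mem_basic _ _).1 h2)
    exact hw (hN1 n y hn w)

/-- Closing a set under not too many binary operations. -/
theorem exists_closed {X ι : Type} {κ : Cardinal.{0}} (hκ : ℵ₀ ≤ κ) (hι : #ι ≤ κ) (S0 : Set X)
    (h0 : #S0 ≤ κ) (f : ι → X → X → X) :
    ∃ S : Set X, S0 ⊆ S ∧ #S ≤ κ ∧ ∀ i, ∀ x ∈ S, ∀ y ∈ S, f i x y ∈ S := by
  let nxt : Set X → Set X := fun T =>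
    T ∪ Set.range (fun q : ι × T × T => f q.1 (q.2.1 : X) (q.2.2 : X))
  let T : ℕ → Set X := fun n => nxt^[n] S0
  have hT : ∀ n, T (n + 1) = nxt (T n) := fun n => Function.iterate_succ_apply' nxt n S0
  have hmono : ∀ n, T n ⊆ T (n + 1) := fun n => by rw [hT]; exact Set.subset_union_left
  have hmono' : Monotone T := monotone_nat_of_le_succ hmono
  have hcard : ∀ n, #(T n) ≤ κ := by
    intro n
    induction n with
    | zero => exact h0
    | succ n ih =>
      rw [hT]
      refine (mk_union_le _ _).trans (add_le_of_le hκ ih ?_)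
      refine mk_range_le.trans ?_
      rw [mk_prod, mk_prod, lift_id, lift_id, lift_id]
      exact mul_le_of_le hκ hι (mul_le_of_le hκ ih ih)
  refine ⟨⋃ n, T n, Set.subset_iUnion T 0, ?_, ?_⟩
  · refine (mk_iUnion_le_sum_mk).trans ?_
    refine (sum_le_sum _ (fun _ => κ) hcard).trans ?_
    rw [sum_const, lift_id, lift_id, mk_nat]
    exact mul_le_of_le hκ hκ le_rfl
  · intro i x hx y hy
    obtain ⟨m, hm⟩ := Set.mem_iUnion.1 hx
    obtain ⟨n, hn⟩ := Set.mem_iUnion.1 hy
    refine Set.mem_iUnion.2 ⟨max m n + 1, ?_⟩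
    rw [hT]
    exact Or.inr ⟨⟨i, ⟨x, hmono' (le_max_left m n) hm⟩, ⟨y, hmono' (le_max_right m n) hn⟩⟩, rfl⟩

section Small

variable {K W : Type} [Field K] [AddCommGroup W] [Module K W] (p : Module.End K W)

/-- The properties of a subalgebra used below. -/
structure Good (S : Subalgebra K (Module.End K W)) : Prop where
  mem : ∀ x ∈ S, x ∈ ringR p
  P : p ∈ S
  reg : ∀ x ∈ S, ∃ y ∈ S, x * y * x = x
  e : ∀ n : ℕ, ∃ e ∈ S, e * e = e ∧ LinearMap.rank e = ℵ_ (n : Ordinal)
  fac : ∀ x ∈ S, ∀ r ∈ S, LinearMap.rank x < ℵ_ Ordinal.omega0 →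
    LinearMap.rank x ≤ LinearMap.rank r → ∃ u ∈ S, ∃ v ∈ S, x = u * r * v

theorem smul_mem_ringR (c : K) {x : Module.End K W} (hx : x ∈ ringR p) : c • x ∈ ringR p := by
  rw [mem_ringR] at hx ⊢
  have h1 : c • x * p - p * (c • x) = (c • (1 : Module.End K W)) * (x * p - p * x) := by
    rw [smul_mul_assoc, mul_smul_comm, smul_mul_assoc, one_mul, smul_sub]
  rw [h1]
  exact (rank_mul_right _ _).trans_lt hx

/-- A small good subalgebra. -/
theorem exists_good (hp : p * p = p) (hW : ∀ n : ℕ, ℵ_ (n : Ordinal) ≤ Module.rank K W) :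
    ∃ S : Subalgebra K (Module.End K W), Good p S ∧ #S ≤ max #K ℵ₀ := by
  classical
  set κ : Cardinal.{0} := max #K ℵ₀ with hκdef
  have hκ : ℵ₀ ≤ κ := le_max_right _ _
  have hpR : p ∈ ringR p := by
    rw [mem_ringR, sub_self, rank_zero']
    exact aleph_pos _
  choose e he1 he2 using fun n => exists_idem (K := K) (W := W) (hW n)
  have heR : ∀ n, e n ∈ ringR p := fun n => mem_ringR_of_lt p (by
    rw [he2]
    exact aleph_lt_aleph.2 (Ordinal.natCast_lt_omega0 n))
  have hq : ∀ x : Module.End K W, ∃ y : Module.End K W,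
      x ∈ ringR p → y ∈ ringR p ∧ x * y * x = x := by
    intro x
    by_cases hx : x ∈ ringR p
    · obtain ⟨y, hy⟩ := regular p hp ⟨x, hx⟩
      exact ⟨y, fun _ => ⟨y.2, congrArg Subtype.val hy⟩⟩
    · exact ⟨0, fun h => absurd h hx⟩
  choose q hq using hq
  have hf : ∀ x r : Module.End K W, ∃ u v : Module.End K W, LinearMap.rank x < ℵ_ Ordinal.omega0 →
      LinearMap.rank x ≤ LinearMap.rank r → u ∈ ringR p ∧ v ∈ ringR p ∧ x = u * r * v := by
    intro x r
    by_cases h1 : LinearMap.rank x < ℵ_ Ordinal.omega0 ∧ LinearMap.rank x ≤ LinearMap.rank r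
    · obtain ⟨u, v, huv, hu, hv⟩ := factor x r h1.2
      exact ⟨u, v, fun _ _ => ⟨mem_ringR_of_lt p (hu.trans_lt h1.1),
        mem_ringR_of_lt p (hv.trans_lt h1.1), huv⟩⟩
    · exact ⟨0, 0, fun h2 h3 => absurd ⟨h2, h3⟩ h1⟩
  choose u v huv using hf
  let ι : Type := K ⊕ Fin 5
  let f : ι → Module.End K W → Module.End K W → Module.End K W := fun i x y =>
    match i with
    | Sum.inl c => c • x
    | Sum.inr 0 => x + y
    | Sum.inr 1 => x * y
    | Sum.inr 2 => q x
    | Sum.inr 3 => u x y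
    | Sum.inr 4 => v x y
  have hι : #ι ≤ κ := by
    rw [mk_sum, lift_id, lift_id]
    exact add_le_of_le hκ (le_max_left _ _) ((mk_fin 5).trans_le ((natCast_lt_aleph0).le.trans hκ))
  let S0 : Set (Module.End K W) := {1, p} ∪ Set.range e
  have hS0 : #S0 ≤ κ := by
    have h1 : S0.Countable := ((Set.toFinite _).countable).union (Set.countable_range e)
    exact (le_aleph0_iff_set_countable.2 h1).trans hκ
  obtain ⟨S, hS1, hS2, hS3⟩ := exists_closed hκ hι S0 hS0 f
  have h1S : (1 : Module.End K W) ∈ S := hS1 (Or.inl (Or.inl rfl))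
  have hsm : ∀ (c : K), ∀ x ∈ S, c • x ∈ S := fun c x hx => hS3 (Sum.inl c) x hx x hx
  let A : Subalgebra K (Module.End K W) :=
    { carrier := {x | x ∈ S ∧ x ∈ ringR p}
      mul_mem' := by
        rintro x y ⟨hx, hx'⟩ ⟨hy, hy'⟩
        exact ⟨hS3 (Sum.inr 1) x hx y hy, (ringR p).mul_mem hx' hy'⟩
      add_mem' := by
        rintro x y ⟨hx, hx'⟩ ⟨hy, hy'⟩
        exact ⟨hS3 (Sum.inr 0) x hx y hy, (ringR p).add_mem hx' hy'⟩
      algebraMap_mem' := by
        intro c
        have : algebraMap K (Module.End K W) c = c • 1 := Algebra.algebraMap_eq_smul_one c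
        rw [this]
        exact ⟨hsm c 1 h1S, smul_mem_ringR p c (ringR p).one_mem⟩ }
  refine ⟨A, ⟨fun x hx => hx.2, ⟨hS1 (Or.inl (Or.inr rfl)), hpR⟩, ?_, ?_, ?_⟩, ?_⟩
  · rintro x ⟨hx, hx'⟩
    exact ⟨q x, ⟨hS3 (Sum.inr 2) x hx x hx, (hq x hx').1⟩, (hq x hx').2⟩
  · intro n
    exact ⟨e n, ⟨hS1 (Or.inr ⟨n, rfl⟩), heR n⟩, he1 n, he2 n⟩
  · rintro x ⟨hx, hx'⟩ r ⟨hr, hr'⟩ h1 h2
    obtain ⟨h3, h4, h5⟩ := huv x r h1 h2
    exact ⟨u x r, ⟨hS3 (Sum.inr 3) x hx r hr, h3⟩, v x r, ⟨hS3 (Sum.inr 4) x hx r hr, h4⟩, h5⟩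
  · refine le_trans (mk_le_mk_of_subset ?_) hS2
    exact fun x hx => hx.1

/-- A good subalgebra carries `Data`. -/
noncomputable def toData (hp : p * p = p) (hrp : ℵ_ Ordinal.omega0 ≤ LinearMap.rank p)
    (hrq : ℵ_ Ordinal.omega0 ≤ LinearMap.rank (1 - p)) (S : Subalgebra K (Module.End K W))
    (hS : Good p S) : Data S where
  reg := by
    rintro ⟨x, hx⟩
    obtain ⟨y, hy, h⟩ := hS.reg x hx
    exact ⟨⟨y, hy⟩, Subtype.ext h⟩
  I n x := LinearMap.rank (x : Module.End K W) < ℵ_ (n : Ordinal)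
  mono m n x h hx := hx.trans_le (aleph_le_aleph.2 (by exact_mod_cast h))
  zero n := by
    rw [Subalgebra.coe_zero, rank_zero']
    exact aleph_pos _
  add n x y hx hy := by
    rw [Subalgebra.coe_add]
    exact lt_add' (aleph0_le_aleph _) hx hy
  left n x y hx := by
    rw [Subalgebra.coe_mul]
    exact (rank_mul_right _ _).trans_lt hx
  right n x y hx := by
    rw [Subalgebra.coe_mul]
    exact (rank_mul_left _ _).trans_lt hx
  e n := ⟨(hS.e n).choose, (hS.e n).choose_spec.1⟩
  e_idem n := Subtype.ext (hS.e n).choose_spec.2.1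
  e_mem n := ⟨n + 1, by
    change LinearMap.rank (hS.e n).choose < _
    rw [(hS.e n).choose_spec.2.2]
    exact aleph_lt_aleph.2 (by exact_mod_cast Nat.lt_succ_self n)⟩
  e_not n := by
    change ¬ LinearMap.rank (hS.e n).choose < _
    rw [(hS.e n).choose_spec.2.2]
    exact lt_irrefl _
  P := ⟨p, hS.P⟩
  P_idem := Subtype.ext hp
  comm x := lt_aleph_omega (hS.mem x x.2)
  fac n x r hx hr := by
    have h1 : LinearMap.rank (x : Module.End K W) < ℵ_ Ordinal.omega0 :=
      hx.trans (aleph_lt_aleph.2 (Ordinal.natCast_lt_omega0 n))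
    have h2 : LinearMap.rank (x : Module.End K W) ≤ LinearMap.rank (r : Module.End K W) :=
      hx.le.trans (not_lt.1 (hr n))
    obtain ⟨u, hu, v, hv, h⟩ := hS.fac x x.2 r r.2 h1 h2
    exact ⟨⟨u, hu⟩, ⟨v, hv⟩, Subtype.ext h⟩
  P_not m h := by
    have h1 : LinearMap.rank p < ℵ_ (m : Ordinal) := h
    exact absurd (h1.trans (aleph_lt_aleph.2 (Ordinal.natCast_lt_omega0 m))) (not_lt.2 hrp)
  Q_not m h := by
    have h1 : LinearMap.rank (1 - p) < ℵ_ (m : Ordinal) := h
    exact absurd (h1.trans (aleph_lt_aleph.2 (Ordinal.natCast_lt_omega0 m))) (not_lt.2 hrq)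

theorem main_small (hp : p * p = p) (hrp : ℵ_ Ordinal.omega0 ≤ LinearMap.rank p)
    (hrq : ℵ_ Ordinal.omega0 ≤ LinearMap.rank (1 - p)) :
    ∃ (R : Type) (_ : Ring R) (_ : Algebra K R), #R ≤ max #K ℵ₀ ∧
      (∀ a : R, ∃ x : R, a * x * a = a) ∧
      (∀ T : Set (Zg R), @IsClosed _ (zariski R) T ↔
        ∃ F : Set (PPPair R), T = ⋂ P ∈ F, P.basic) ∧
      ∃ A B : PPPair R, @IsIrreducible _ (zariski R) (A.basic ∩ B.basic) ∧
        @IsClosed _ (zariski R) (A.basic ∩ B.basic) ∧
        ∀ x ∈ A.basic ∩ B.basic, @closure _ (zariski R) {x} ≠ A.basic ∩ B.basic := by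
  have hW : ∀ n : ℕ, ℵ_ (n : Ordinal) ≤ Module.rank K W := fun n =>
    ((aleph_lt_aleph.2 (Ordinal.natCast_lt_omega0 n)).le.trans hrp).trans
      (LinearMap.rank_le_domain p)
  obtain ⟨S, hS, hcard⟩ := exists_good p hp hW
  obtain ⟨A, B, h1, h2, h3⟩ := main_data (toData p hp hrp hrq S hS)
  exact ⟨S, inferInstance, inferInstance, hcard, (toData p hp hrp hrq S hS).reg,
    closed_iff (toData p hp hrp hrq S hS).reg, A, B, h2, h1, h3⟩

end Small

/-- For every field `K` there is a von Neumann regular `K`-algebra `R` with at most `max (#K) ℵ₀`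
elements (so a countable ring if `K` is countable) whose rep-Zariski spectrum has two basic closed
sets with irreducible intersection without generic point. The Zariski-closed sets are the
intersections of families of basic ones. -/
theorem result (K : Type) [Field K] :
    ∃ (R : Type) (_ : Ring R) (_ : Algebra K R), #R ≤ max #K ℵ₀ ∧
      (∀ a : R, ∃ x : R, a * x * a = a) ∧
      (∀ T : Set (Zg R), @IsClosed _ (zariski R) T ↔
        ∃ F : Set (PPPair R), T = ⋂ P ∈ F, P.basic) ∧
      ∃ A B : PPPair R, @IsIrreducible _ (zariski R) (A.basic ∩ B.basic) ∧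
        @IsClosed _ (zariski R) (A.basic ∩ B.basic) ∧
        ∀ x ∈ A.basic ∩ B.basic, @closure _ (zariski R) {x} ≠ A.basic ∩ B.basic := by
  let ι : Type := (ℵ_ Ordinal.omega0 : Cardinal.{0}).out
  have hι : #ι = ℵ_ Ordinal.omega0 := Cardinal.mk_out _
  let V : Type := ι →₀ K
  have hV : Module.rank K V = ℵ_ Ordinal.omega0 := by
    rw [rank_finsupp_self', hι]
  let p : Module.End K (V × V) := LinearMap.inl K V V ∘ₗ LinearMap.fst K V V
  have hp : p * p = p := by
    ext <;> simp [p]
  have hid : LinearMap.rank (LinearMap.id : V →ₗ[K] V) = ℵ_ Ordinal.omega0 := by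
    rw [LinearMap.rank, LinearMap.range_id, rank_top, hV]
  have hrp : ℵ_ Ordinal.omega0 ≤ LinearMap.rank p := by
    have h : (LinearMap.id : V →ₗ[K] V) =
        (LinearMap.fst K V V ∘ₗ p) ∘ₗ LinearMap.inl K V V := by
      refine LinearMap.ext fun x => ?_
      simp [p]
    rw [← hid, h]
    exact (LinearMap.rank_comp_le_left _ _).trans (LinearMap.rank_comp_le_right _ _)
  have hrq : ℵ_ Ordinal.omega0 ≤ LinearMap.rank (1 - p) := by
    have h : (LinearMap.id : V →ₗ[K] V) =
        (LinearMap.snd K V V ∘ₗ (1 - p)) ∘ₗ LinearMap.inr K V V := by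
      refine LinearMap.ext fun x => ?_
      simp [p]
    rw [← hid, h]
    exact (LinearMap.rank_comp_le_left _ _).trans (LinearMap.rank_comp_le_right _ _)
  exact main_small p hp hrp hrq

end Pool.Agent.Results.MP_9f28a9_al.CountableRings
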